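import Pool.Agent.Y630.TG.Games
import Pool.Agent.W906.MU.Final

/-! Unique games whose constraints are hidden in random faults (helper329). -/

set_option autoImplicit false
set_option linter.unusedSectionVars false
set_option linter.unusedVariables false

namespace Pool.Agent.Q329.UF

open Finset Pool.Agent.Y630.NW Pool.Agent.Y630.TF Pool.Agent.Y630.TR Pool.Agent.W969.MC
  Pool.Agent.Y630.TG

/-- the positions: a constraint and a tag -/
abbrev UPos (N q K : ℕ) : Type := (Fin N × Fin N × Equiv.Perm (Fin q)) × Fin K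

/-- no constraint has two tags -/
def OneTag {N q K : ℕ} (x : UPos N q K → Bool) : Prop :=
  ∀ e e', x e = true → x e' = true → e.1 = e'.1 → e = e'

/-- the labelling satisfies the constraint -/
def USat {N q K : ℕ} (A B : Fin N → Fin q) (e : UPos N q K) : Prop :=
  e.1.2.2 (A e.1.1) = B e.1.2.1

open Classical in
def UYes {N q K : ℕ} (m : ℕ) (ε : ℝ) (x : UPos N q K → Bool) : Prop :=
  OneTag x ∧ m ≤ (univ.filter fun e => x e = true).card ∧ ∃ A B : Fin N → Fin q,
    ((univ.filter fun e => x e = true ∧ ¬ USat A B e).card : ℝ) ≤ ε * m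

open Classical in
def UNo {N q K : ℕ} (m : ℕ) (δ : ℝ) (x : UPos N q K → Bool) : Prop :=
  OneTag x ∧ (univ.filter fun e => x e = true).card = m ∧ ∀ A B : Fin N → Fin q,
    ((univ.filter fun e => x e = true ∧ USat A B e).card : ℝ) ≤ δ * m

open Classical in
/-- the bits of a game -/
noncomputable def encU {N q : ℕ} (I : Pool.Agent.W906.MU.Game N q) :
    Fin N × Fin N × Equiv.Perm (Fin q) → Bool := fun x => decide (x ∈ I)

lemma hostU_true {N q K : ℕ} [NeZero K] {I : Pool.Agent.W906.MU.Game N q}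
    {τ : Fin N × Fin N × Equiv.Perm (Fin q) → Fin K} {e : UPos N q K} :
    host (Function.Embedding.refl _) (fun _ => false) τ (encU I) e = true ↔
      τ e.1 = e.2 ∧ e.1 ∈ I := by
  classical
  rw [host_true]
  constructor
  · rintro (h | ⟨x, h1, h2⟩)
    · exact absurd h (by simp)
    · have h3 : (x, τ x) = e := h2
      rw [← h3]
      refine ⟨rfl, ?_⟩
      unfold encU at h1
      rwa [decide_eq_true_iff] at h1
  · rintro ⟨h1, h2⟩
    refine Or.inr ⟨e.1, ?_, Prod.ext rfl h1⟩
    unfold encU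
    rwa [decide_eq_true_iff]

open Classical in
lemma hostU_count {N q K : ℕ} [NeZero K] (I : Pool.Agent.W906.MU.Game N q)
    (τ : Fin N × Fin N × Equiv.Perm (Fin q) → Fin K)
    (P : Fin N × Fin N × Equiv.Perm (Fin q) → Prop) :
    (univ.filter fun e : UPos N q K =>
      host (Function.Embedding.refl _) (fun _ => false) τ (encU I) e = true ∧ P e.1).card =
    (I.filter fun c => P c).card := by
  symm
  refine Finset.card_bij (fun c _ => (c, τ c)) ?_ ?_ ?_
  · intro c hc
    have hc' := Finset.mem_filter.mp hc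
    rw [Finset.mem_filter]
    exact ⟨Finset.mem_univ _, hostU_true.mpr ⟨rfl, hc'.1⟩, hc'.2⟩
  · intro c _ c' _ h
    exact (Prod.mk.inj h).1
  · intro e he
    have he' := (Finset.mem_filter.mp he).2
    obtain ⟨h1, h2⟩ := hostU_true.mp he'.1
    exact ⟨e.1, Finset.mem_filter.mpr ⟨h2, he'.2⟩, Prod.ext rfl h1⟩

open Classical in
lemma hostU_count' {N q K : ℕ} [NeZero K] (I : Pool.Agent.W906.MU.Game N q)
    (τ : Fin N × Fin N × Equiv.Perm (Fin q) → Fin K) :
    (univ.filter fun e : UPos N q K =>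
      host (Function.Embedding.refl _) (fun _ => false) τ (encU I) e = true).card = I.card := by
  have h := hostU_count I τ (fun _ => True)
  simpa using h

lemma oneTag_host {N q K : ℕ} [NeZero K] (I : Pool.Agent.W906.MU.Game N q)
    (τ : Fin N × Fin N × Equiv.Perm (Fin q) → Fin K) :
    OneTag (host (Function.Embedding.refl _) (fun _ => false) τ (encU I)) := by
  intro e e' he he' h
  obtain ⟨h3, -⟩ := hostU_true.mp he
  obtain ⟨h3', -⟩ := hostU_true.mp he'
  refine Prod.ext h ?_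
  rw [← h3, ← h3', h]

lemma prog_conv {I : Type} {inp : Set (I → ℝ)} {l : List (I → ℝ)} (h : H630VC.Prog inp l) :
    Pool.Agent.W906.MU.Prog inp l := by
  induction h with
  | nil => exact Pool.Agent.W906.MU.Prog.nil
  | input _ hf ih => exact Pool.Agent.W906.MU.Prog.input ih hf
  | gate _ hφ hf hg ih => exact Pool.Agent.W906.MU.Prog.gate ih hφ hf hg

open Classical in
theorem ug_fault (q : ℕ) (hq : 1 ≤ q) (δ : ℝ) (hδ : 1 / (q : ℝ) < δ) :
    ∃ N0 : ℕ, ∀ N : ℕ, N0 ≤ N → ∃ m : ℕ, 0 < m ∧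
    ∀ ε : ℝ, (N : ℝ) ^ (-(1 / 139) : ℝ) ≤ ε → ∀ D K : ℕ, 1 ≤ D →
    D * (2 * Real.log N + q * Real.log q + 4) ≤ K →
    ∀ (R : Type) [Fintype R] [Nonempty R] (C : R → RC (UPos N q K × Bool)) (s : ℕ)
      (hT : ∀ ρ, (C ρ).T = ∅) (hs : ∀ ρ, (C ρ).S ≤ s)
      (h1 : ∀ x : UPos N q K → Bool, UNo m δ x →
        (4 / 5 : ℝ) * (Fintype.card R * (D : ℝ) ^ Fintype.card (UPos N q K)) ≤
        ({s : R × (UPos N q K → Fin D) | (C s.1).acc (lit x (Flt s.2))}.ncard : ℝ))
      (h2 : ∀ x : UPos N q K → Bool, UYes m ε x →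
        ({ρ : R | (C ρ).acc (lit x ∅)}.ncard : ℝ) ≤ 1 / 4 * Fintype.card R),
      (2 : ℝ) ^ ((N : ℝ) ^ (1 / 139 : ℝ)) ≤ 3 * s + 2 := by
  obtain ⟨N0, H⟩ := Pool.Agent.W906.MU.lower q hq δ hδ
  refine ⟨max N0 1, ?_⟩
  intro N hN
  have hN0 : N0 ≤ N := (le_max_left _ _).trans hN
  have hN1 : 1 ≤ N := (le_max_right _ _).trans hN
  obtain ⟨m, hm, H⟩ := H N hN0
  refine ⟨m, hm, ?_⟩
  intro ε hε D K hD hK R _ _ C s hT hs h1 h2
  have hNR : (1 : ℝ) ≤ N := by exact_mod_cast hN1
  have hqR : (1 : ℝ) ≤ q := by exact_mod_cast hq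
  have hDR : (1 : ℝ) ≤ D := by exact_mod_cast hD
  have hlogN : 0 ≤ Real.log N := Real.log_nonneg hNR
  have hlogq : 0 ≤ Real.log q := Real.log_nonneg hqR
  have hK0 : 0 < K := by
    have h3 : (0 : ℝ) < K := by
      refine lt_of_lt_of_le ?_ hK
      have : (0 : ℝ) < 2 * Real.log N + q * Real.log q + 4 := by positivity
      positivity
    exact_mod_cast h3
  have _ : NeZero K := ⟨hK0.ne'⟩
  have hne : Nonempty (Fin N × Fin N × Equiv.Perm (Fin q)) :=
    ⟨⟨⟨0, by omega⟩, ⟨0, by omega⟩, Equiv.refl _⟩⟩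
  have hcard : (Fintype.card (Fin N × Fin N × Equiv.Perm (Fin q)) : ℝ) =
      (N : ℝ) ^ 2 * (q.factorial : ℝ) := by
    rw [Fintype.card_prod, Fintype.card_prod, Fintype.card_perm, Fintype.card_fin,
      Fintype.card_fin]
    push_cast
    ring
  have hfac : (0 : ℝ) < (q.factorial : ℝ) := by exact_mod_cast Nat.factorial_pos q
  have hfac2 : Real.log (q.factorial : ℝ) ≤ q * Real.log q := by
    rw [← Real.log_pow]
    refine Real.log_le_log hfac ?_
    exact_mod_cast Nat.factorial_le_pow q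
  have hbad : (Fintype.card (Fin N × Fin N × Equiv.Perm (Fin q)) : ℝ) *
      (1 - 1 / (D : ℝ)) ^ K ≤ 1 / 40 := by
    refine places_bad hD (by rw [hcard]; positivity) ?_
    rw [hcard, Real.log_mul (by positivity) (by positivity), Real.log_pow]
    push_cast
    refine le_trans ?_ hK
    refine mul_le_mul_of_nonneg_left ?_ (by positivity)
    linarith
  obtain ⟨l, hprog, hlen, f, hf, hdec⟩ := rc_fault (I := Pool.Agent.W906.MU.Game N q)
    (X := Fin N × Fin N × Equiv.Perm (Fin q)) (Pool.Agent.W906.MU.inputs N q)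
    (fun I => encU I) (fun x => by
      left
      refine ⟨x, ?_⟩
      funext I
      unfold Pool.Agent.H560R2.bit encU
      by_cases h3 : x ∈ I
      · simp [h3]
      · simp [h3])
    (fun c => Or.inr ⟨c, rfl⟩) (Pool.Agent.W906.MU.NoI m δ) (Pool.Agent.W906.MU.YesI m ε)
    hK0 hD C hT hbad
    (fun I hI τ => by
      refine h1 _ ⟨oneTag_host I τ, ?_, ?_⟩
      · have h5 := hostU_count' I τ
        exact h5.trans hI.1
      · intro A B
        have e1 := hostU_count I τ (fun c => c.2.2 (A c.1) = B c.2.1)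
        have h3 := hI.2 A B
        refine le_trans (le_of_eq ?_) h3
        exact congrArg (Nat.cast (R := ℝ)) e1)
    (fun I hI τ => by
      refine h2 _ ⟨oneTag_host I τ, ?_, ?_⟩
      · have h5 := hostU_count' I τ
        exact hI.1.trans (le_of_eq h5.symm)
      · obtain ⟨A, B, hAB⟩ := hI.2
        refine ⟨A, B, ?_⟩
        have e1 := hostU_count I τ (fun c => ¬ c.2.2 (A c.1) = B c.2.1)
        refine le_trans (le_of_eq ?_) hAB
        congr 1
        convert e1 <;> exact Iff.rfl)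
  have : Nonempty (R × (Fin N × Fin N × Equiv.Perm (Fin q) → Fin K)) :=
    ⟨(Classical.arbitrary R, fun _ => 0)⟩
  obtain ⟨ω, hω⟩ := H ε hε _ l (fun ω => prog_conv (hprog ω)) ⟨f, fun _ => 1, hf, fun I hI => by
    have h3 := (hdec I).1 hI
    have h4 : 3 * Fintype.card (R × (Fin N × Fin N × Equiv.Perm (Fin q) → Fin K)) ≤
      4 * (univ.filter fun ω => 1 ≤ f ω I).card := by convert h3
    show 2 * Fintype.card (R × (Fin N × Fin N × Equiv.Perm (Fin q) → Fin K)) ≤
      3 * (univ.filter fun ω => 1 ≤ f ω I).card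
    omega, fun I hI => by
    have h3 := (hdec I).2 hI
    have h4 : 3 * Fintype.card (R × (Fin N × Fin N × Equiv.Perm (Fin q) → Fin K)) ≤
      4 * (univ.filter fun ω => f ω I < 1).card := by convert h3
    show 2 * Fintype.card (R × (Fin N × Fin N × Equiv.Perm (Fin q) → Fin K)) ≤
      3 * (univ.filter fun ω => f ω I < 1).card
    omega⟩
  refine hω.trans ?_
  have h3 : (l ω).length ≤ 3 * s + 2 := (hlen ω).trans (by have := hs ω.1; omega)
  exact_mod_cast h3

end Pool.Agent.Q329.UF
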